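import Pool.Agent.Lib.MP_685c9e_ag.Ex73

/-!
# Toric Fano varieties

The largest alpha invariant of a K-unstable toric Fano manifold of dimension `n ≥ 2` is `1/3`.
-/

set_option autoImplicit false

namespace Pool.Agent.Results.MP_685c9e_ag.ToricCase

open Pool.Agent.Lib.MP_685c9e_ag

theorem result :
    (∀ (n : ℕ) (V : Finset (Fin n → ℤ)), Reflexive V → Unstable V → alphaT V ≤ 1 / 3) ∧
    (∀ n : ℕ, 2 ≤ n → IsGreatest {a : ℝ | ∃ V : Finset (Fin n → ℤ),
      SmoothFano V ∧ Unstable V ∧ a = alphaT V} (1 / 3)) :=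
  main

end Pool.Agent.Results.MP_685c9e_ag.ToricCase
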